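import Pool.Agent.Work.MP_e0c7e8_nt.BG.Main

/-!
# Torsion in class groups of imaginary quadratic orders: below the GRH exponent, few exceptions
-/

set_option autoImplicit false

namespace Pool.Agent.Results.MP_e0c7e8_nt.FewExceptionalFields

/-- Let `a ≥ 0`, `m ≥ 5`. There is `C` such that for all `2 ≤ Y ≤ X`: if `S` is a finite set of
negative discriminants `d` with `Y ≤ |d| ≤ X` of orders in pairwise different fields (no product of
two different elements is a square), and the class group of the order of discriminant `d` has more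
than `C |d| ^ (1 / 2 - 1 / (2 m) - 1 / (1000 m ^ 2))` elements `x` with `x ^ (2 ^ a m) = 1` for all
`d` in `S`, then `S` has at most `C (1 + log (log X / log Y))` elements. -/
theorem result :
    ∀ a m : ℕ, 5 ≤ m → ∃ C : ℝ, 0 < C ∧
      ∀ X Y : ℝ, 2 ≤ Y → Y ≤ X → ∀ S : Finset ℤ,
        (∀ d ∈ S, d < 0 ∧ (d % 4 = 0 ∨ d % 4 = 1) ∧ Y ≤ |(d : ℝ)| ∧ |(d : ℝ)| ≤ X ∧
          C * |(d : ℝ)| ^ ((1 : ℝ) / 2 - 1 / (2 * m) - 1 / (1000 * m ^ 2)) <
            (Nat.card {x : ClassGroup ↥(Algebra.adjoin ℤ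
              ({((d : ℂ) + Complex.I * ((Real.sqrt (-(d : ℝ)) : ℝ) : ℂ)) / 2} : Set ℂ)) //
              x ^ (2 ^ a * m) = 1} : ℝ)) →
        (∀ d ∈ S, ∀ e ∈ S, d ≠ e → ¬ IsSquare (d * e)) →
        (S.card : ℝ) ≤ C * (1 + Real.log (Real.log X / Real.log Y)) :=
  Pool.Agent.Work.MP_e0c7e8_nt.BG.FF_all

end Pool.Agent.Results.MP_e0c7e8_nt.FewExceptionalFields
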