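import Pool.Agent.Work.MP_e0c7e8_nt.BG.Main

/-!
# Torsion in class groups of imaginary quadratic orders: below the GRH exponent
-/

set_option autoImplicit false

namespace Pool.Agent.Results.MP_e0c7e8_nt.ManySplitPrimes

/-- For every `m ≥ 5` there are an integer `K ≥ 1` and a real `c > 0` such that for all `a ≥ 0`
there is `C` with the following property. Let `d` be a negative discriminant (fundamental or not)
for which at least `|d| ^ ((1 - c) / K)` odd primes `p ≤ |d| ^ (1 / K)` satisfy `(d | p) = 1`. Then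
the class group of the order of discriminant `d` has at most
`C |d| ^ (1 / 2 - 1 / (2 m) - 1 / (1000 m ^ 2))` elements `x` with `x ^ (2 ^ a m) = 1`. -/
theorem result :
    ∀ m : ℕ, 5 ≤ m → ∃ K : ℕ, 0 < K ∧ ∃ c : ℝ, 0 < c ∧ ∀ a : ℕ, ∃ C : ℝ, 0 < C ∧
      ∀ d : ℤ, d < 0 → (d % 4 = 0 ∨ d % 4 = 1) →
        |(d : ℝ)| ^ ((1 - c) / K) ≤
          (((Finset.Icc 1 ⌊|(d : ℝ)| ^ ((1 : ℝ) / K)⌋₊).filter
            (fun p : ℕ => p.Prime ∧ Odd p ∧ jacobiSym d p = 1)).card : ℝ) →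
        (Nat.card {x : ClassGroup ↥(Algebra.adjoin ℤ
            ({((d : ℂ) + Complex.I * ((Real.sqrt (-(d : ℝ)) : ℝ) : ℂ)) / 2} : Set ℂ)) //
            x ^ (2 ^ a * m) = 1} : ℝ) ≤
          C * |(d : ℝ)| ^ ((1 : ℝ) / 2 - 1 / (2 * m) - 1 / (1000 * m ^ 2)) := by
  intro m hm
  obtain ⟨K, hK, c, hc, h⟩ := Pool.Agent.Work.MP_e0c7e8_nt.BG.FP_all m hm
  refine ⟨K, hK, c, hc, fun a => ?_⟩
  obtain ⟨C, hC, h2⟩ := h a
  refine ⟨C, hC, fun d hd hd4 hP => h2 d hd hd4 (hP.trans ?_)⟩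
  unfold Pool.Agent.Work.MP_e0c7e8_nt.SM.Pd
  have hsub : (Finset.Icc 1 ⌊|(d : ℝ)| ^ ((1 : ℝ) / K)⌋₊).filter
      (fun p : ℕ => p.Prime ∧ Odd p ∧ jacobiSym d p = 1) ⊆
      (Finset.Icc 1 ⌊|(d : ℝ)| ^ ((1 : ℝ) / K)⌋₊).filter
      (fun p : ℕ => p.Prime ∧ Pool.Agent.Work.MP_e0c7e8_nt.SM.chi d p = 1) := by
    intro p hp
    rw [Finset.mem_filter] at hp ⊢
    refine ⟨hp.1, hp.2.1, ?_⟩
    unfold Pool.Agent.Work.MP_e0c7e8_nt.SM.chi
    rw [if_pos hp.2.2.1]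
    exact hp.2.2.2
  exact_mod_cast Finset.card_le_card hsub

end Pool.Agent.Results.MP_e0c7e8_nt.ManySplitPrimes
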