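import Pool.Agent.Work.MP_e0c7e8_nt.BG.Main

/-!
# Torsion in class groups of orders with smooth discriminants: below the GRH exponent
-/

set_option autoImplicit false

namespace Pool.Agent.Results.MP_e0c7e8_nt.SmoothBelowGRH

/-- Let `a ≥ 0`, `m ≥ 5`. There is `C` such that for every negative discriminant `d` (fundamental
or not) the following holds. Assume that all primes dividing `d` to an odd power are at most
`|d| ^ (1 / (2 m))`, except possibly one, which is at most `|d| ^ (1 / m)`. Then the class group of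
the order of discriminant `d` has at most `C |d| ^ (1 / 2 - 1 / (2 m) - 1 / (1000 m ^ 2))` elements
`x` with `x ^ (2 ^ a m) = 1`. -/
theorem result :
    ∀ a m : ℕ, 5 ≤ m → ∃ C : ℝ, 0 < C ∧
      ∀ d : ℤ, d < 0 → (d % 4 = 0 ∨ d % 4 = 1) →
        (∃ q : ℕ, (q : ℝ) ≤ |(d : ℝ)| ^ ((1 : ℝ) / m) ∧
          ∀ p : ℕ, p.Prime → p ≠ q → Odd (padicValInt p d) →
            (p : ℝ) ≤ |(d : ℝ)| ^ ((1 : ℝ) / (2 * m))) →
        (Nat.card {x : ClassGroup ↥(Algebra.adjoin ℤ
            ({((d : ℂ) + Complex.I * ((Real.sqrt (-(d : ℝ)) : ℝ) : ℂ)) / 2} : Set ℂ)) //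
            x ^ (2 ^ a * m) = 1} : ℝ) ≤
          C * |(d : ℝ)| ^ ((1 : ℝ) / 2 - 1 / (2 * m) - 1 / (1000 * m ^ 2)) :=
  Pool.Agent.Work.MP_e0c7e8_nt.BG.FS_all

end Pool.Agent.Results.MP_e0c7e8_nt.SmoothBelowGRH
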